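import Pool.Agent.H34.L.TH161.KS.Defs

/-!
# KS RAIL: closure under lattice operations relative to a point
(job 3050 of helper161, written by helper359)
-/

set_option autoImplicit false

open Finset Filter Topology
open scoped Classical FinsetFamily

namespace Pool.Agent.TH359.KS_RAIL

open Pool.Agent.TH161.KS Pool.Agent.TH161.LW

variable {α : Type}

/-- the profile of a map relative to `y` -/
def rep (y : α) (f : α → ℕ) : Option α → ℤ
  | none => -(f y : ℤ)
  | some z => (f z : ℤ) - f y

/-- the map with a given profile -/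
def unrep (F : Option α → ℤ) (z : α) : ℕ := (F (some z) - F none).toNat

/-- profiles of order preserving maps -/
structure Valid [PartialOrder α] (M : ℕ) (y : α) (F : Option α → ℤ) : Prop where
  h0 : F (some y) = 0
  mono : ∀ a b : α, a ≤ b → F (some a) ≤ F (some b)
  lo : ∀ z, F none ≤ F (some z)
  hi : ∀ z, F (some z) + 1 ≤ F none + M

theorem unrep_rep (y : α) (f : α → ℕ) : unrep (rep y f) = f := by
  funext z
  unfold unrep rep
  simp

theorem rep_inj (y : α) : Function.Injective (rep y) := fun f g h => by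
  rw [← unrep_rep y f, h, unrep_rep]

variable [Fintype α] [PartialOrder α]

theorem valid_rep {M : ℕ} {y : α} {f : α → ℕ} (hf : f ∈ Om α M) : Valid M y (rep y f) := by
  obtain ⟨h1, h2⟩ := mem_Om.1 hf
  refine ⟨?_, ?_, ?_, ?_⟩
  · simp [rep]
  · intro a b hab
    have := h2 hab
    simp only [rep]
    omega
  · intro z
    simp only [rep]
    omega
  · intro z
    have := h1 z
    simp only [rep]
    omega

theorem unrep_val {M : ℕ} {y : α} {F : Option α → ℤ} (hF : Valid M y F) (z : α) :
    (unrep F z : ℤ) = F (some z) - F none := by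
  unfold unrep
  have := hF.lo z
  omega

theorem rep_unrep {M : ℕ} {y : α} {F : Option α → ℤ} (hF : Valid M y F) :
    rep y (unrep F) = F := by
  funext o
  cases o with
  | none =>
    simp only [rep]
    rw [unrep_val hF, hF.h0]
    ring
  | some z =>
    simp only [rep]
    rw [unrep_val hF, unrep_val hF, hF.h0]
    ring

theorem unrep_mem {M : ℕ} {y : α} {F : Option α → ℤ} (hF : Valid M y F) :
    unrep F ∈ Om α M := by
  rw [mem_Om]
  constructor
  · intro x
    have h1 := unrep_val hF x
    have h2 := hF.hi x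
    omega
  · intro a b hab
    have h1 := unrep_val hF a
    have h2 := unrep_val hF b
    have h3 := hF.mono a b hab
    omega

theorem valid_inf {M : ℕ} {y : α} {F G : Option α → ℤ} (hF : Valid M y F) (hG : Valid M y G)
    (s : ℕ) : Valid M y (F ⊓ fun o => G o + s) := by
  refine ⟨?_, ?_, ?_, ?_⟩
  · simp only [Pi.inf_apply]
    rw [hF.h0, hG.h0]
    simp
  · intro a b hab
    have h1 := hF.mono a b hab
    have h2 := hG.mono a b hab
    simp only [Pi.inf_apply]
    exact inf_le_inf h1 (by linarith)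
  · intro z
    have h1 := hF.lo z
    have h2 := hG.lo z
    simp only [Pi.inf_apply]
    exact inf_le_inf h1 (by linarith)
  · intro z
    have h1 := hF.hi z
    have h2 := hG.hi z
    simp only [Pi.inf_apply]
    rcases le_total (F none) (G none + s) with h | h
    · rw [inf_eq_left.2 h]
      have := inf_le_left (a := F (some z)) (b := G (some z) + s)
      linarith
    · rw [inf_eq_right.2 h]
      have := inf_le_right (a := F (some z)) (b := G (some z) + s)
      linarith

theorem valid_sup {M : ℕ} {y : α} {F G : Option α → ℤ} (hF : Valid M y F) (hG : Valid M y G)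
    (s : ℕ) : Valid M y (fun o => (F ⊔ fun o => G o + (s : ℤ)) o - s) := by
  refine ⟨?_, ?_, ?_, ?_⟩
  · simp only [Pi.sup_apply]
    rw [hF.h0, hG.h0]
    simp
  · intro a b hab
    have h1 := hF.mono a b hab
    have h2 := hG.mono a b hab
    simp only [Pi.sup_apply]
    have := sup_le_sup h1 (show G (some a) + (s : ℤ) ≤ G (some b) + s by linarith)
    linarith
  · intro z
    have h1 := hF.lo z
    have h2 := hG.lo z
    simp only [Pi.sup_apply]
    have := sup_le_sup h1 (show G none + (s : ℤ) ≤ G (some z) + s by linarith)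
    linarith
  · intro z
    have h1 := hF.hi z
    have h2 := hG.hi z
    simp only [Pi.sup_apply]
    rcases le_total (F (some z)) (G (some z) + s) with h | h
    · rw [sup_eq_right.2 h]
      have := le_sup_right (a := F none) (b := G none + s)
      linarith
    · rw [sup_eq_left.2 h]
      have := le_sup_left (a := F none) (b := G none + s)
      linarith

/-- the basic inequality -/
theorem basic (M : ℕ) (y : α) (A B : Finset (α → ℕ)) (hA : A ⊆ Om α M) (hB : B ⊆ Om α M)
    (s : ℕ) : ∃ C D : Finset (α → ℕ), C ⊆ Om α M ∧ D ⊆ Om α M ∧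
      A.card * B.card ≤ C.card * D.card ∧
      (∀ c ∈ C, ∃ f ∈ A, ∃ g ∈ B, ∀ z, (c z : ℤ) - c y =
        min ((f z : ℤ) - f y) ((g z : ℤ) - g y + s)) ∧
      (∀ d ∈ D, ∃ f ∈ A, ∃ g ∈ B, ∀ z, (d z : ℤ) - d y =
        max ((f z : ℤ) - f y - s) ((g z : ℤ) - g y)) := by
  set S : Finset (Option α → ℤ) := A.image (rep y) with hS
  set T : Finset (Option α → ℤ) := B.image (fun g o => rep y g o + (s : ℤ)) with hT
  have hSc : S.card = A.card := card_image_of_injective _ (rep_inj y)
  have hTc : T.card = B.card := by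
    apply card_image_of_injective
    intro f g h
    apply rep_inj y
    funext o
    have := congrFun h o
    simp only at this
    linarith
  have hinf : ∀ F ∈ S ⊼ T, Valid M y F ∧ ∃ f ∈ A, ∃ g ∈ B,
      F = rep y f ⊓ fun o => rep y g o + (s : ℤ) := by
    intro F hF
    obtain ⟨a, ha, b, hb, rfl⟩ := mem_infs.1 hF
    obtain ⟨f, hf, rfl⟩ := mem_image.1 ha
    obtain ⟨g, hg, rfl⟩ := mem_image.1 hb
    exact ⟨valid_inf (valid_rep (hA hf)) (valid_rep (hB hg)) s, f, hf, g, hg, rfl⟩
  have hsup : ∀ F ∈ S ⊻ T, Valid M y (fun o => F o - s) ∧ ∃ f ∈ A, ∃ g ∈ B,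
      F = rep y f ⊔ fun o => rep y g o + (s : ℤ) := by
    intro F hF
    obtain ⟨a, ha, b, hb, rfl⟩ := mem_sups.1 hF
    obtain ⟨f, hf, rfl⟩ := mem_image.1 ha
    obtain ⟨g, hg, rfl⟩ := mem_image.1 hb
    exact ⟨valid_sup (valid_rep (hA hf)) (valid_rep (hB hg)) s, f, hf, g, hg, rfl⟩
  have hCc : ((S ⊼ T).image unrep).card = (S ⊼ T).card := by
    apply card_image_of_injOn
    intro F hF G hG h
    have h1 := rep_unrep (hinf F (mem_coe.1 hF)).1
    have h2 := rep_unrep (hinf G (mem_coe.1 hG)).1
    rw [← h1, ← h2, h]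
  have hDc : ((S ⊻ T).image (fun F => unrep (fun o => F o - s))).card = (S ⊻ T).card := by
    apply card_image_of_injOn
    intro F hF G hG h
    have h1 := rep_unrep (hsup F (mem_coe.1 hF)).1
    have h2 := rep_unrep (hsup G (mem_coe.1 hG)).1
    have h' : unrep (fun o => F o - (s : ℤ)) = unrep (fun o => G o - (s : ℤ)) := h
    rw [h'] at h1
    rw [h1] at h2
    funext o
    have := congrFun h2 o
    linarith
  refine ⟨(S ⊼ T).image unrep, (S ⊻ T).image (fun F => unrep (fun o => F o - s)), ?_, ?_, ?_,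
    ?_, ?_⟩
  · intro c hc
    obtain ⟨F, hF, rfl⟩ := mem_image.1 hc
    exact unrep_mem (hinf F hF).1
  · intro c hc
    obtain ⟨F, hF, rfl⟩ := mem_image.1 hc
    exact unrep_mem (hsup F hF).1
  · rw [hCc, hDc, ← hSc, ← hTc]
    exact Finset.le_card_infs_mul_card_sups S T
  · intro c hc
    obtain ⟨F, hF, rfl⟩ := mem_image.1 hc
    obtain ⟨hv, f, hf, g, hg, hFe⟩ := hinf F hF
    refine ⟨f, hf, g, hg, fun z => ?_⟩
    rw [unrep_val hv, unrep_val hv, hv.h0]
    have e : F (some z) = min ((f z : ℤ) - f y) ((g z : ℤ) - g y + s) := by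
      rw [hFe]
      rfl
    rw [← e]
    ring
  · intro c hc
    obtain ⟨F, hF, rfl⟩ := mem_image.1 hc
    obtain ⟨hv, f, hf, g, hg, hFe⟩ := hsup F hF
    refine ⟨f, hf, g, hg, fun z => ?_⟩
    rw [unrep_val hv, unrep_val hv, hv.h0]
    have e : F (some z) = max ((f z : ℤ) - f y) ((g z : ℤ) - g y + s) := by
      rw [hFe]
      rfl
    rw [e]
    rcases le_total ((f z : ℤ) - f y) ((g z : ℤ) - g y + s) with h | h
    · rw [max_eq_right h, max_eq_right (by linarith)]
      ring
    · rw [max_eq_left h, max_eq_left (by linarith)]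
      ring

theorem inf_set (M : ℕ) (y : α) (hO : (Om α M).Nonempty) (V : α → Finset (α → ℕ))
    (Z : Finset α) (hZ : Z.Nonempty)
    (hV : ∀ j ∈ Z, V j ⊆ Om α M ∧ (Om α M).card ≤ 16 * (V j).card) :
    ∃ A : Finset (α → ℕ), A ⊆ Om α M ∧ (Om α M).card ≤ 16 ^ Z.card * A.card ∧
      ∀ f₀ ∈ A, ∃ g : α → (α → ℕ), (∀ j ∈ Z, g j ∈ V j) ∧
        ∀ z, (f₀ z : ℤ) - f₀ y = Z.inf' hZ fun j => (g j z : ℤ) - g j y := by
  induction hZ using Finset.Nonempty.cons_induction with
  | singleton a =>
    obtain ⟨h1, h2⟩ := hV a (mem_singleton_self a)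
    refine ⟨V a, h1, by rw [card_singleton, pow_one]; exact h2, fun f₀ hf₀ => ?_⟩
    refine ⟨fun _ => f₀, fun j hj => ?_, fun z => ?_⟩
    · rw [mem_singleton.1 hj]
      exact hf₀
    · simp
  | cons a Z ha hZ ih =>
    obtain ⟨A, hA1, hA2, hA3⟩ := ih fun j hj => hV j (mem_cons_of_mem hj)
    obtain ⟨h1, h2⟩ := hV a (mem_cons_self a Z)
    obtain ⟨C, D, hC, hD, hcard, hCm, -⟩ := basic M y (V a) A h1 hA1 0
    refine ⟨C, hC, ?_, fun f₀ hf₀ => ?_⟩
    · have hDc : D.card ≤ (Om α M).card := card_le_card hD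
      have hpos : 0 < (Om α M).card := card_pos.2 hO
      have h3 : (Om α M).card * (Om α M).card ≤
          (16 ^ (Finset.cons a Z ha).card * C.card) * (Om α M).card := by
        calc (Om α M).card * (Om α M).card ≤ (16 * (V a).card) * (16 ^ Z.card * A.card) :=
              Nat.mul_le_mul h2 hA2
          _ = 16 ^ (Z.card + 1) * ((V a).card * A.card) := by ring
          _ ≤ 16 ^ (Z.card + 1) * (C.card * D.card) := Nat.mul_le_mul_left _ hcard
          _ ≤ 16 ^ (Z.card + 1) * (C.card * (Om α M).card) :=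
              Nat.mul_le_mul_left _ (Nat.mul_le_mul_left _ hDc)
          _ = _ := by
              rw [card_cons]
              ring
      exact Nat.le_of_mul_le_mul_right h3 hpos
    · obtain ⟨f, hf, f', hf', hfz⟩ := hCm f₀ hf₀
      obtain ⟨g, hg, hgz⟩ := hA3 f' hf'
      refine ⟨Function.update g a f, fun j hj => ?_, fun z => ?_⟩
      · rcases mem_cons.1 hj with rfl | hj
        · rw [Function.update_self]
          exact hf
        · have hne : j ≠ a := fun h => ha (h ▸ hj)
          rw [Function.update_of_ne hne]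
          exact hg j hj
      · rw [hfz z, Finset.inf'_cons hZ, hgz z]
        have e : (Z.inf' hZ fun j => ((Function.update g a f j z : ℕ) : ℤ) -
            Function.update g a f j y) = Z.inf' hZ fun j => (g j z : ℤ) - g j y := by
          apply Finset.inf'_congr hZ rfl
          intro j hj
          have hne : j ≠ a := fun h => ha (h ▸ hj)
          rw [Function.update_of_ne hne]
        rw [e, Function.update_self]
        simp

theorem sup_set (M : ℕ) (y : α) (hO : (Om α M).Nonempty) (V : α → Finset (α → ℕ))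
    (Z : Finset α) (hZ : Z.Nonempty)
    (hV : ∀ j ∈ Z, V j ⊆ Om α M ∧ (Om α M).card ≤ 16 * (V j).card) :
    ∃ A : Finset (α → ℕ), A ⊆ Om α M ∧ (Om α M).card ≤ 16 ^ Z.card * A.card ∧
      ∀ f₀ ∈ A, ∃ g : α → (α → ℕ), (∀ j ∈ Z, g j ∈ V j) ∧
        ∀ z, (f₀ z : ℤ) - f₀ y = Z.sup' hZ fun j => (g j z : ℤ) - g j y := by
  induction hZ using Finset.Nonempty.cons_induction with
  | singleton a =>
    obtain ⟨h1, h2⟩ := hV a (mem_singleton_self a)
    refine ⟨V a, h1, by rw [card_singleton, pow_one]; exact h2, fun f₀ hf₀ => ?_⟩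
    refine ⟨fun _ => f₀, fun j hj => ?_, fun z => ?_⟩
    · rw [mem_singleton.1 hj]
      exact hf₀
    · simp
  | cons a Z ha hZ ih =>
    obtain ⟨A, hA1, hA2, hA3⟩ := ih fun j hj => hV j (mem_cons_of_mem hj)
    obtain ⟨h1, h2⟩ := hV a (mem_cons_self a Z)
    obtain ⟨C, D, hC, hD, hcard, -, hDm⟩ := basic M y (V a) A h1 hA1 0
    refine ⟨D, hD, ?_, fun f₀ hf₀ => ?_⟩
    · have hCc : C.card ≤ (Om α M).card := card_le_card hC
      have hpos : 0 < (Om α M).card := card_pos.2 hO
      have h3 : (Om α M).card * (Om α M).card ≤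
          (16 ^ (Finset.cons a Z ha).card * D.card) * (Om α M).card := by
        calc (Om α M).card * (Om α M).card ≤ (16 * (V a).card) * (16 ^ Z.card * A.card) :=
              Nat.mul_le_mul h2 hA2
          _ = 16 ^ (Z.card + 1) * ((V a).card * A.card) := by ring
          _ ≤ 16 ^ (Z.card + 1) * (C.card * D.card) := Nat.mul_le_mul_left _ hcard
          _ ≤ 16 ^ (Z.card + 1) * ((Om α M).card * D.card) :=
              Nat.mul_le_mul_left _ (Nat.mul_le_mul_right _ hCc)
          _ = _ := by
              rw [card_cons]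
              ring
      exact Nat.le_of_mul_le_mul_right h3 hpos
    · obtain ⟨f, hf, f', hf', hfz⟩ := hDm f₀ hf₀
      obtain ⟨g, hg, hgz⟩ := hA3 f' hf'
      refine ⟨Function.update g a f, fun j hj => ?_, fun z => ?_⟩
      · rcases mem_cons.1 hj with rfl | hj
        · rw [Function.update_self]
          exact hf
        · have hne : j ≠ a := fun h => ha (h ▸ hj)
          rw [Function.update_of_ne hne]
          exact hg j hj
      · rw [hfz z, Finset.sup'_cons hZ, hgz z]
        have e : (Z.sup' hZ fun j => ((Function.update g a f j z : ℕ) : ℤ) -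
            Function.update g a f j y) = Z.sup' hZ fun j => (g j z : ℤ) - g j y := by
          apply Finset.sup'_congr hZ rfl
          intro j hj
          have hne : j ≠ a := fun h => ha (h ▸ hj)
          rw [Function.update_of_ne hne]
        rw [e, Function.update_self]
        simp

theorem t_RAIL : P_RAIL := by
  intro α _ _ M y Z hZ V U B₁ B₂ c hO hV hU hB₁ hB₂
  obtain ⟨A, hA1, hA2, hA3⟩ := inf_set M y hO V Z hZ hV
  obtain ⟨R, hR1, hR2, hR3⟩ := sup_set M y hO U Z hZ hU
  have hpos : 0 < (Om α M).card := card_pos.2 hO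
  -- removing `B₁`
  have hAB : (Om α M).card ≤ 2 * 16 ^ Z.card * (A \ B₁).card := by
    have h1 : A.card ≤ (A \ B₁).card + B₁.card := by
      have := Finset.card_le_card_sdiff_add_card (s := A) (t := B₁)
      omega
    have h2 : 16 ^ Z.card * A.card ≤ 16 ^ Z.card * (A \ B₁).card + 16 ^ Z.card * B₁.card := by
      rw [← Nat.mul_add]
      exact Nat.mul_le_mul_left _ h1
    have h3 : 2 * (16 ^ Z.card * B₁.card) ≤ (Om α M).card := by
      calc _ = B₁.card * (2 * 16 ^ Z.card) := by ring
        _ ≤ _ := hB₁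
    have h4 : 2 * 16 ^ Z.card * (A \ B₁).card = 2 * (16 ^ Z.card * (A \ B₁).card) := by ring
    omega
  obtain ⟨C, D, hC, hD, hcard, hCm, -⟩ := basic M y R (A \ B₁) hR1
    (Finset.sdiff_subset.trans hA1) c
  have hCc : (Om α M).card ≤ 2 * 16 ^ (2 * Z.card) * C.card := by
    have hDc : D.card ≤ (Om α M).card := card_le_card hD
    have h3 : (Om α M).card * (Om α M).card ≤
        (2 * 16 ^ (2 * Z.card) * C.card) * (Om α M).card := by
      calc (Om α M).card * (Om α M).card ≤
            (16 ^ Z.card * R.card) * (2 * 16 ^ Z.card * (A \ B₁).card) :=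
            Nat.mul_le_mul hR2 hAB
        _ = 2 * 16 ^ (2 * Z.card) * (R.card * (A \ B₁).card) := by ring
        _ ≤ 2 * 16 ^ (2 * Z.card) * (C.card * D.card) := Nat.mul_le_mul_left _ hcard
        _ ≤ 2 * 16 ^ (2 * Z.card) * (C.card * (Om α M).card) :=
            Nat.mul_le_mul_left _ (Nat.mul_le_mul_left _ hDc)
        _ = _ := by ring
    exact Nat.le_of_mul_le_mul_right h3 hpos
  have hlt : B₂.card < C.card := by
    by_contra hcon
    rw [not_lt] at hcon
    have h1 : 2 * 16 ^ (2 * Z.card) * C.card ≤ B₂.card * (2 * 16 ^ (2 * Z.card)) := by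
      rw [mul_comm (B₂.card)]
      exact Nat.mul_le_mul_left _ hcon
    omega
  obtain ⟨w, hwC, hwB⟩ := Finset.exists_mem_notMem_of_card_lt_card hlt
  obtain ⟨r, hr, f₀, hf₀, hwz⟩ := hCm w hwC
  rw [Finset.mem_sdiff] at hf₀
  obtain ⟨g, hg, hgz⟩ := hA3 f₀ hf₀.1
  obtain ⟨f, hf, hfz⟩ := hR3 r hr
  refine ⟨g, f, fun j hj => ⟨hg j hj, hf j hj⟩, f₀, hA1 hf₀.1, w, hC hwC, hf₀.2, hwB, hgz, ?_⟩
  intro z
  rw [hwz z, hfz z]

end Pool.Agent.TH359.KS_RAIL
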